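import Mathlib

set_option autoImplicit false

open Filter Topology

namespace Pool.Agent.Results.MP_24d2d6_an.NoCoveringOrbit

/-- `T` is quasi-rigid: along a strictly increasing sequence of positive integers `θ`,
`T ^ θ n x → x` for every `x` in a dense set -/
def QuasiRigid {𝕜 : Type*} [RCLike 𝕜] {X : Type*} [NormedAddCommGroup X] [NormedSpace 𝕜 X]
    (T : X →L[𝕜] X) : Prop :=
  ∃ θ : ℕ → ℕ, StrictMono θ ∧ (∀ n, 0 < θ n) ∧
    ∃ D : Set X, Dense D ∧ ∀ x ∈ D, Tendsto (fun n => (T ^ θ n) x) atTop (𝓝 x)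

/-- `h` belongs to `Ω(T)`: along a strictly increasing sequence of positive integers `ω`,
`T ^ ω n x → h x` for every `x` in a dense set -/
def InOmega {𝕜 : Type*} [RCLike 𝕜] {X : Type*} [NormedAddCommGroup X] [NormedSpace 𝕜 X]
    (T h : X →L[𝕜] X) : Prop :=
  ∃ ω : ℕ → ℕ, StrictMono ω ∧ (∀ n, 0 < ω n) ∧
    ∃ D : Set X, Dense D ∧ ∀ x ∈ D, Tendsto (fun n => (T ^ ω n) x) atTop (𝓝 (h x))

/-- `h` belongs to the closure of the set `S` of bounded operators in the strong operator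
topology: every basic neighbourhood of `h`, given by a finite set `F` of vectors and `ε > 0`,
meets `S` -/
def InSOTClosure {𝕜 : Type*} [RCLike 𝕜] {X : Type*} [NormedAddCommGroup X] [NormedSpace 𝕜 X]
    (S : Set (X →L[𝕜] X)) (h : X →L[𝕜] X) : Prop :=
  ∀ (F : Finset X) (ε : ℝ), 0 < ε → ∃ A ∈ S, ∀ x ∈ F, ‖A x - h x‖ < ε

/-! ### the weights -/

/-- `1 + |i|` on `ℤ / 2 ^ k` -/
noncomputable def a (k : ℕ) (i : ZMod (2 ^ k)) : ℝ := 1 + (i.valMinAbs.natAbs : ℝ)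

theorem one_le_a (k : ℕ) (i : ZMod (2 ^ k)) : 1 ≤ a k i := by
  unfold a; linarith [Nat.cast_nonneg (α := ℝ) i.valMinAbs.natAbs]

theorem a_pos (k : ℕ) (i : ZMod (2 ^ k)) : 0 < a k i := lt_of_lt_of_le one_pos (one_le_a k i)

theorem natAbs_intCast_le (n : ℕ) [NeZero n] (j : ℤ) :
    ((j : ZMod n).valMinAbs).natAbs ≤ j.natAbs := by
  exact ZMod.natAbs_min_of_le_div_two n _ _ (by simp) (ZMod.natAbs_valMinAbs_le _)

theorem a_le (k : ℕ) (i : ZMod (2 ^ k)) (j : ℤ) :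
    a k i ≤ (1 + |(j : ℝ)|) * a k (i - j) := by
  have h1 : i.valMinAbs.natAbs ≤ (i - (j : ZMod (2 ^ k))).valMinAbs.natAbs + j.natAbs := by
    calc i.valMinAbs.natAbs = ((i - (j : ZMod (2 ^ k))) + j).valMinAbs.natAbs := by simp
      _ ≤ ((i - (j : ZMod (2 ^ k))).valMinAbs + (j : ZMod (2 ^ k)).valMinAbs).natAbs :=
          ZMod.natAbs_valMinAbs_add_le _ _
      _ ≤ (i - (j : ZMod (2 ^ k))).valMinAbs.natAbs + ((j : ZMod (2 ^ k)).valMinAbs).natAbs :=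
          Int.natAbs_add_le _ _
      _ ≤ _ := by
          have := natAbs_intCast_le (2 ^ k) j
          omega
  have h2 : (i.valMinAbs.natAbs : ℝ) ≤
      ((i - (j : ZMod (2 ^ k))).valMinAbs.natAbs : ℝ) + |(j : ℝ)| := by
    have : ((j.natAbs : ℕ) : ℝ) = |(j : ℝ)| := by
      rw [Nat.cast_natAbs]; simp
    rw [← this]
    exact_mod_cast h1
  have h3 : 0 ≤ ((i - (j : ZMod (2 ^ k))).valMinAbs.natAbs : ℝ) := Nat.cast_nonneg _
  have h4 : 0 ≤ |(j : ℝ)| := abs_nonneg _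
  unfold a
  nlinarith

/-- the index set -/
abbrev Idx : Type := Σ k : ℕ, ZMod (2 ^ k)

section

variable (𝕜 : Type) [RCLike 𝕜]

/-- the Hilbert space -/
abbrev H : Type := lp (fun _ : Idx => 𝕜) 2

/-- the index shift -/
def sh (j : ℤ) : Idx ≃ Idx where
  toFun p := ⟨p.1, p.2 - j⟩
  invFun p := ⟨p.1, p.2 + j⟩
  left_inv p := by simp
  right_inv p := by simp

theorem two_toReal : (2 : ENNReal).toReal = 2 := by simp

noncomputable def wt (j : ℤ) (p : Idx) : ℝ := a p.1 p.2 / a p.1 (p.2 - j)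

theorem wt_nonneg (j : ℤ) (p : Idx) : 0 ≤ wt j p := by
  unfold wt; exact div_nonneg (a_pos _ _).le (a_pos _ _).le

theorem wt_le (j : ℤ) (p : Idx) : wt j p ≤ 1 + |(j : ℝ)| := by
  unfold wt
  rw [div_le_iff₀ (a_pos _ _)]
  exact a_le _ _ _

variable {𝕜}

theorem term_le (j : ℤ) (x : H 𝕜) (p : Idx) :
    ‖((wt j p : ℝ) : 𝕜) * x (sh j p)‖ ^ (2 : ℝ) ≤
      (1 + |(j : ℝ)|) ^ (2 : ℝ) * ‖x (sh j p)‖ ^ (2 : ℝ) := by
  rw [← Real.mul_rpow (by positivity) (norm_nonneg _)]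
  apply Real.rpow_le_rpow (norm_nonneg _) _ (by norm_num)
  rw [norm_mul, RCLike.norm_ofReal, abs_of_nonneg (wt_nonneg j p)]
  exact mul_le_mul_of_nonneg_right (wt_le j p) (norm_nonneg _)

theorem summable_sq (x : H 𝕜) : Summable fun p : Idx => ‖x p‖ ^ (2 : ℝ) := by
  have := (lp.memℓp x).summable (by norm_num)
  simpa using this

theorem summable_sh (j : ℤ) (x : H 𝕜) : Summable fun p : Idx => ‖x (sh j p)‖ ^ (2 : ℝ) :=
  (summable_sq x).comp_injective (sh j).injective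

theorem memW (j : ℤ) (x : H 𝕜) :
    Memℓp (fun p : Idx => ((wt j p : ℝ) : 𝕜) * x (sh j p)) 2 := by
  apply memℓp_gen
  rw [two_toReal]
  exact Summable.of_nonneg_of_le (fun p => by positivity) (term_le j x)
    ((summable_sh j x).mul_left _)

/-- the weighted shift by `j` as a linear map -/
noncomputable def Wlin (j : ℤ) : H 𝕜 →ₗ[𝕜] H 𝕜 where
  toFun x := ⟨fun p : Idx => ((wt j p : ℝ) : 𝕜) * x (sh j p), memW j x⟩
  map_add' x y := by
    ext p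
    simp [mul_add]
  map_smul' c x := by
    ext p
    simp [mul_left_comm]

theorem Wlin_norm (j : ℤ) (x : H 𝕜) : ‖Wlin j x‖ ≤ (1 + |(j : ℝ)|) * ‖x‖ := by
  apply lp.norm_le_of_tsum_le (by norm_num) (by positivity)
  rw [two_toReal, Real.mul_rpow (by positivity) (norm_nonneg _)]
  have h1 : ‖x‖ ^ (2 : ℝ) = ∑' p : Idx, ‖x p‖ ^ (2 : ℝ) := by
    have := lp.norm_rpow_eq_tsum (p := 2) (by norm_num) x
    simpa using this
  rw [h1, ← (sh j).tsum_eq (fun p => ‖x p‖ ^ (2 : ℝ)), ← tsum_mul_left]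
  refine Summable.tsum_le_tsum (term_le j x) ?_ ((summable_sh j x).mul_left _)
  exact Summable.of_nonneg_of_le (fun p => by positivity) (term_le j x)
    ((summable_sh j x).mul_left _)

/-- the weighted shift by `j` -/
noncomputable def W (j : ℤ) : H 𝕜 →L[𝕜] H 𝕜 :=
  (Wlin j).mkContinuous (1 + |(j : ℝ)|) (Wlin_norm j)

theorem W_apply (j : ℤ) (x : H 𝕜) (k : ℕ) (i : ZMod (2 ^ k)) :
    (W j x) ⟨k, i⟩ = ((a k i / a k (i - j) : ℝ) : 𝕜) * x ⟨k, i - j⟩ := rfl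

theorem W_zero : (W 0 : H 𝕜 →L[𝕜] H 𝕜) = 1 := by
  ext x p
  obtain ⟨k, i⟩ := p
  rw [W_apply]
  have : i - ((0 : ℤ) : ZMod (2 ^ k)) = i := by simp
  rw [this, div_self (a_pos k i).ne']
  simp

theorem W_mul (j l : ℤ) : (W j * W l : H 𝕜 →L[𝕜] H 𝕜) = W (j + l) := by
  ext x p
  obtain ⟨k, i⟩ := p
  rw [mul_apply_eq_comp, W_apply, W_apply, W_apply]
  have : i - ((j + l : ℤ) : ZMod (2 ^ k)) = i - j - l := by push_cast; ring
  rw [this, ← mul_assoc, ← RCLike.ofReal_mul]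
  congr 2
  have := (a_pos k (i - j)).ne'
  have := (a_pos k (i - j - l)).ne'
  field_simp

theorem W_pow (n : ℕ) : ((W 1 : H 𝕜 →L[𝕜] H 𝕜) ^ n) = W n := by
  induction n with
  | zero => simp [W_zero]
  | succ n ih => rw [pow_succ, ih, W_mul]; push_cast; rfl

/-! ### the dense set -/

/-- vectors which vanish on all blocks `k ≥ K` for some `K` -/
def D (𝕜 : Type) [RCLike 𝕜] : Set (H 𝕜) :=
  {x | ∃ K : ℕ, ∀ k, K ≤ k → ∀ i : ZMod (2 ^ k), x ⟨k, i⟩ = 0}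

theorem D_single (p : Idx) (c : 𝕜) : (lp.single 2 p c : H 𝕜) ∈ D 𝕜 := by
  refine ⟨p.1 + 1, fun k hk i => ?_⟩
  apply lp.single_apply_ne
  intro h
  have := congrArg Sigma.fst h
  simp at this
  omega

theorem D_zero : (0 : H 𝕜) ∈ D 𝕜 := ⟨0, fun _ _ _ => rfl⟩

theorem D_add {x y : H 𝕜} (hx : x ∈ D 𝕜) (hy : y ∈ D 𝕜) : x + y ∈ D 𝕜 := by
  obtain ⟨K, hK⟩ := hx
  obtain ⟨L, hL⟩ := hy
  refine ⟨max K L, fun k hk i => ?_⟩
  have h1 := hK k (le_trans (le_max_left _ _) hk) i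
  have h2 := hL k (le_trans (le_max_right _ _) hk) i
  simp [h1, h2]

theorem D_sum (x : H 𝕜) (s : Finset Idx) : (∑ p ∈ s, lp.single 2 p (x p) : H 𝕜) ∈ D 𝕜 := by
  classical
  induction s using Finset.induction_on with
  | empty => simpa using D_zero
  | insert p s hp ih =>
    rw [Finset.sum_insert hp]
    exact D_add (D_single p _) ih

theorem D_dense : Dense (D 𝕜) := by
  intro x
  have h := lp.hasSum_single (p := 2) (by norm_num) x
  exact mem_closure_of_tendsto h (Eventually.of_forall fun s => D_sum x s)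

theorem W_two_pow {x : H 𝕜} {K : ℕ} (hx : ∀ k, K ≤ k → ∀ i : ZMod (2 ^ k), x ⟨k, i⟩ = 0)
    (j : ℤ) (n : ℕ) (hn : K ≤ n) : W ((2 : ℤ) ^ n + j) x = W j x := by
  ext p
  obtain ⟨k, i⟩ := p
  rw [W_apply, W_apply]
  by_cases hk : K ≤ k
  · rw [hx k hk, hx k hk]; simp
  · have h1 : (((2 : ℤ) ^ n : ℤ) : ZMod (2 ^ k)) = 0 := by
      rw [ZMod.intCast_zmod_eq_zero_iff_dvd]
      push_cast
      exact pow_dvd_pow _ (by omega)
    have : i - (((2 : ℤ) ^ n + j : ℤ) : ZMod (2 ^ k)) = i - j := by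
      rw [Int.cast_add, h1, zero_add]
    rw [this]

theorem quasiRigid : QuasiRigid (W 1 : H 𝕜 →L[𝕜] H 𝕜) := by
  refine ⟨fun n => 2 ^ (n + 1), ?_, fun n => by positivity, D 𝕜, D_dense, ?_⟩
  · intro m n hmn
    exact Nat.pow_lt_pow_right (by norm_num) (by omega)
  · rintro x ⟨K, hK⟩
    apply tendsto_const_nhds.congr'
    filter_upwards [eventually_ge_atTop K] with n hn
    rw [W_pow]
    have := W_two_pow hK 0 (n + 1) (by omega)
    rw [add_zero, W_zero] at this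
    push_cast
    rw [this]
    simp

theorem inOmega (M : ℕ) : InOmega (W 1 : H 𝕜 →L[𝕜] H 𝕜) (W (-(M : ℤ))) := by
  have hlt : ∀ n : ℕ, M < 2 ^ (n + M) := fun n =>
    lt_of_lt_of_le (Nat.lt_two_pow_self (n := M)) (Nat.pow_le_pow_right (by norm_num) (by omega))
  refine ⟨fun n => 2 ^ (n + M) - M, ?_, fun n => ?_, D 𝕜, D_dense, ?_⟩
  · intro m n hmn
    have h1 : 2 ^ (m + M) < 2 ^ (n + M) := Nat.pow_lt_pow_right (by norm_num) (by omega)
    have h2 := hlt m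
    have h3 := hlt n
    show 2 ^ (m + M) - M < 2 ^ (n + M) - M
    omega
  · have h2 := hlt n
    show 0 < 2 ^ (n + M) - M
    omega
  · rintro x ⟨K, hK⟩
    apply tendsto_const_nhds.congr'
    filter_upwards [eventually_ge_atTop K] with n hn
    rw [W_pow]
    have := W_two_pow hK (-(M : ℤ)) (n + M) (by omega)
    rw [← this]
    congr 2
    rw [Nat.cast_sub (hlt n).le]
    push_cast
    ring

/-! ### the operators whose orbit accumulates at the identity -/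

theorem coord_le (x : H 𝕜) (p : Idx) : ‖x p‖ ≤ ‖x‖ := lp.norm_apply_le_norm (by norm_num) x p

/-- the coordinates in block `k` of `T ^ n Λ x` only depend on `n` modulo `2 ^ k` -/
theorem W_mod (x : H 𝕜) (k : ℕ) (i : ZMod (2 ^ k)) (n : ℕ) :
    (W (n : ℤ) x) ⟨k, i⟩ = (W ((n % 2 ^ k : ℕ) : ℤ) x) ⟨k, i⟩ := by
  rw [W_apply, W_apply]
  have : ((((n % 2 ^ k : ℕ) : ℤ)) : ZMod (2 ^ k)) = ((n : ℤ) : ZMod (2 ^ k)) := by
    rw [Int.cast_natCast, Int.cast_natCast]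
    exact ZMod.natCast_mod n (2 ^ k)
  rw [this]

theorem exists_block (Λ : H 𝕜 →L[𝕜] H 𝕜)
    (h : InSOTClosure {A | ∃ n : ℕ, 0 < n ∧ A = (W 1) ^ n * Λ} 1) (k : ℕ) :
    ∃ n : ℕ, ∀ x i, (W (n : ℤ) (Λ x)) ⟨k, i⟩ = x ⟨k, i⟩ := by
  classical
  by_contra hcon
  push Not at hcon
  choose x i hxi using hcon
  set F : Finset (H 𝕜) := (Finset.range (2 ^ k)).image x
  have hne : (Finset.range (2 ^ k)).Nonempty := ⟨0, by simp⟩
  set ε : ℝ := (Finset.range (2 ^ k)).inf' hne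
    (fun n => ‖(W (n : ℤ) (Λ (x n))) ⟨k, i n⟩ - (x n) ⟨k, i n⟩‖) with hε
  have hεpos : 0 < ε := by
    rw [hε, Finset.lt_inf'_iff]
    intro n _
    rw [norm_pos_iff, sub_ne_zero]
    exact hxi n
  obtain ⟨A, ⟨m, _, rfl⟩, hA⟩ := h F ε hεpos
  have hm : m % 2 ^ k ∈ Finset.range (2 ^ k) := by
    rw [Finset.mem_range]; exact Nat.mod_lt _ (by positivity)
  set n := m % 2 ^ k with hn
  have h1 := hA (x n) (Finset.mem_image_of_mem x hm)
  have h2 : ε ≤ ‖(W (n : ℤ) (Λ (x n))) ⟨k, i n⟩ - (x n) ⟨k, i n⟩‖ :=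
    Finset.inf'_le _ hm
  have h3 : ‖(W (n : ℤ) (Λ (x n))) ⟨k, i n⟩ - (x n) ⟨k, i n⟩‖ ≤
      ‖((W 1 : H 𝕜 →L[𝕜] H 𝕜) ^ m * Λ) (x n) - (1 : H 𝕜 →L[𝕜] H 𝕜) (x n)‖ := by
    have h4 := coord_le (((W 1 : H 𝕜 →L[𝕜] H 𝕜) ^ m * Λ) (x n) - (1 : H 𝕜 →L[𝕜] H 𝕜) (x n))
      ⟨k, i n⟩
    rw [W_pow, mul_apply_eq_comp] at h4 ⊢
    rw [lp.coeFn_sub, Pi.sub_apply, W_mod, ← hn] at h4
    exact h4
  linarith

theorem block_form {Λ : H 𝕜 →L[𝕜] H 𝕜} {k n : ℕ}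
    (h : ∀ x i, (W (n : ℤ) (Λ x)) ⟨k, i⟩ = x ⟨k, i⟩) (x : H 𝕜) (i : ZMod (2 ^ k)) :
    (Λ x) ⟨k, i⟩ = ((a k i / a k (i + n) : ℝ) : 𝕜) * x ⟨k, i + n⟩ := by
  rw [← h x (i + n), W_apply]
  have : i + (n : ZMod (2 ^ k)) - ((n : ℤ) : ZMod (2 ^ k)) = i := by
    simp
  rw [this, ← mul_assoc, ← RCLike.ofReal_mul]
  have h1 := (a_pos k i).ne'
  have h2 := (a_pos k (i + n)).ne'
  rw [show a k i / a k (i + ↑n) * (a k (i + ↑n) / a k i) = 1 by field_simp]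
  simp

theorem block_bound {Λ : H 𝕜 →L[𝕜] H 𝕜} {k n : ℕ}
    (h : ∀ x i, (W (n : ℤ) (Λ x)) ⟨k, i⟩ = x ⟨k, i⟩) :
    (((n : ZMod (2 ^ k)).valMinAbs.natAbs : ℕ) : ℝ) ≤ ‖Λ‖ := by
  have h1 := block_form h (lp.single 2 (⟨k, 0⟩ : Idx) (1 : 𝕜)) (-(n : ZMod (2 ^ k)))
  rw [neg_add_cancel, lp.single_apply_self, mul_one] at h1
  have h2 := coord_le (Λ (lp.single 2 (⟨k, 0⟩ : Idx) (1 : 𝕜))) ⟨k, -(n : ZMod (2 ^ k))⟩
  rw [h1, RCLike.norm_ofReal] at h2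
  have h3 := Λ.le_opNorm (lp.single 2 (⟨k, 0⟩ : Idx) (1 : 𝕜))
  rw [lp.norm_single (by norm_num), norm_one, mul_one] at h3
  have h4 : a k (0 : ZMod (2 ^ k)) = 1 := by simp [a]
  have h5 : a k (-(n : ZMod (2 ^ k))) = 1 + (((n : ZMod (2 ^ k)).valMinAbs.natAbs : ℕ) : ℝ) := by
    unfold a; rw [ZMod.natAbs_valMinAbs_neg]
  rw [h4, h5, div_one, abs_of_nonneg (by positivity)] at h2
  linarith

/-! ### the test vector -/

/-- `x(k, 0) = 2 ^ (-k)` and `0` elsewhere -/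
noncomputable def tv (p : Idx) : 𝕜 := if p.2 = 0 then (((1 / 2 : ℝ) ^ p.1 : ℝ) : 𝕜) else 0

theorem tv_mem : Memℓp (fun p : Idx => (tv p : 𝕜)) 2 := by
  apply memℓp_gen
  rw [two_toReal]
  have hs : Summable fun k : ℕ => ((1 / 2 : ℝ) ^ k) ^ (2 : ℝ) := by
    have : Summable fun k : ℕ => (1 / 4 : ℝ) ^ k :=
      summable_geometric_of_lt_one (by norm_num) (by norm_num)
    refine this.congr fun k => ?_
    rw [Real.rpow_two, ← pow_mul, mul_comm, pow_mul]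
    norm_num
  have hinj : Function.Injective (fun k : ℕ => (⟨k, 0⟩ : Idx)) := by
    intro k l hkl
    exact congrArg Sigma.fst hkl
  rw [← hinj.summable_iff]
  · refine hs.congr fun k => ?_
    simp [tv]
  · rintro ⟨k, i⟩ hki
    have hi : i ≠ 0 := by
      rintro rfl
      exact hki ⟨k, rfl⟩
    simp [tv, hi]

noncomputable def tvec (𝕜 : Type) [RCLike 𝕜] : H 𝕜 := ⟨fun p : Idx => (tv p : 𝕜), tv_mem⟩

theorem tvec_zero (k : ℕ) : (tvec 𝕜) ⟨k, 0⟩ = (((1 / 2 : ℝ) ^ k : ℝ) : 𝕜) := by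
  show (tv (⟨k, 0⟩ : Idx) : 𝕜) = _
  simp [tv]

theorem tvec_ne {k : ℕ} {i : ZMod (2 ^ k)} (hi : i ≠ 0) : (tvec 𝕜) ⟨k, i⟩ = 0 := by
  show (tv (⟨k, i⟩ : Idx) : 𝕜) = _
  simp [tv, hi]

theorem far (Λ : H 𝕜 →L[𝕜] H 𝕜)
    (h : InSOTClosure {A | ∃ n : ℕ, 0 < n ∧ A = (W 1) ^ n * Λ} 1) (R : ℕ) (hR : ‖Λ‖ ≤ R)
    (n : ℕ) :
    1 / (4 * (3 * (R : ℝ) + 1)) ≤
      ‖((W 1 : H 𝕜 →L[𝕜] H 𝕜) ^ n * Λ) (tvec 𝕜) - W (-((R + 1 : ℕ) : ℤ)) (tvec 𝕜)‖ := by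
  set N : ℕ := 2 * (n + R + (R + 1)) with hN
  set k : ℕ := Nat.size N with hk
  have hk1 : N < 2 ^ k := Nat.lt_size_self N
  have hk1' : (N : ℤ) < 2 ^ k := by exact_mod_cast hk1
  have hk2 : 2 ^ k ≤ 2 * N := by
    have hpos : 0 < k := Nat.size_pos.mpr (by omega)
    obtain ⟨k', hk'⟩ : ∃ k', k = k' + 1 := ⟨k - 1, by omega⟩
    have : k' < Nat.size N := by omega
    have := Nat.lt_size.mp this
    rw [hk', pow_succ]; omega
  obtain ⟨r, hr⟩ := exists_block Λ h k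
  have hb := block_bound hr
  set ρ : ℤ := (r : ZMod (2 ^ k)).valMinAbs with hρ
  have hρR : ρ.natAbs ≤ R := by
    have : ((ρ.natAbs : ℕ) : ℝ) ≤ (R : ℝ) := hb.trans hR
    exact_mod_cast this
  have hρcast : ((ρ : ℤ) : ZMod (2 ^ k)) = (r : ZMod (2 ^ k)) := ZMod.coe_valMinAbs _
  -- the coordinate
  set i : ZMod (2 ^ k) := ((n - ρ : ℤ) : ZMod (2 ^ k)) with hi
  have hvi : i.valMinAbs = (n : ℤ) - ρ := by
    rw [ZMod.valMinAbs_spec]
    refine ⟨rfl, ?_, ?_⟩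
    · push_cast; omega
    · push_cast; omega
  have hc := coord_le (((W 1 : H 𝕜 →L[𝕜] H 𝕜) ^ n * Λ) (tvec 𝕜) -
    W (-((R + 1 : ℕ) : ℤ)) (tvec 𝕜)) ⟨k, i⟩
  refine le_trans ?_ hc
  rw [lp.coeFn_sub, Pi.sub_apply, W_pow, mul_apply_eq_comp, W_apply, W_apply, block_form hr]
  have e1 : i - ((n : ℤ) : ZMod (2 ^ k)) + (r : ZMod (2 ^ k)) = 0 := by
    rw [hi, ← hρcast]; push_cast; ring
  rw [e1, tvec_zero]
  have e2 : i - ((-((R + 1 : ℕ) : ℤ) : ℤ) : ZMod (2 ^ k)) ≠ 0 := by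
    rw [hi, ← Int.cast_sub, Ne, ZMod.intCast_zmod_eq_zero_iff_dvd]
    intro hdvd
    have := Int.le_of_dvd (by push_cast; omega) hdvd
    push_cast at this
    omega
  rw [tvec_ne e2, mul_zero, sub_zero, ← RCLike.ofReal_mul, ← RCLike.ofReal_mul,
    RCLike.norm_ofReal]
  have h1 := (a_pos k (i - ((n : ℤ) : ZMod (2 ^ k)))).ne'
  have h4 : a k (0 : ZMod (2 ^ k)) = 1 := by simp [a]
  rw [h4, div_one, ← mul_assoc, div_mul_cancel₀ _ h1]
  have h5 : a k i = 1 + |(n : ℝ) - (ρ : ℝ)| := by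
    unfold a
    rw [hvi, Nat.cast_natAbs]
    push_cast
    rfl
  rw [h5, abs_of_nonneg (by positivity)]
  have h6 : (2 : ℝ) ^ k ≤ 2 * N := by exact_mod_cast hk2
  have h7 : (N : ℝ) = 2 * (n + R + (R + 1)) := by rw [hN]; push_cast; ring
  have h8 : (ρ : ℝ) ≤ R := by
    have : ρ ≤ (R : ℤ) := by omega
    exact_mod_cast this
  have h9 : (n : ℝ) ≤ |(n : ℝ) - ρ| + R := by
    have := le_abs_self ((n : ℝ) - ρ)
    linarith
  have h10 : (0 : ℝ) ≤ |(n : ℝ) - ρ| := abs_nonneg _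
  have hR0 : (0 : ℝ) ≤ R := Nat.cast_nonneg _
  rw [one_div_pow, mul_one_div, div_le_div_iff₀ (by positivity) (by positivity)]
  nlinarith [mul_nonneg hR0 h10]

theorem separable : TopologicalSpace.SeparableSpace (H 𝕜) := by
  have hc : (Set.range fun p : Idx => (lp.single 2 p (1 : 𝕜) : H 𝕜)).Countable :=
    Set.countable_range _
  have hs := hc.isSeparable.span (R := 𝕜)
  rw [← TopologicalSpace.isSeparable_univ_iff]
  refine (hs.closure).mono ?_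
  intro x _
  have h := lp.hasSum_single (p := 2) (by norm_num) x
  refine mem_closure_of_tendsto h (Eventually.of_forall fun s => ?_)
  refine Submodule.sum_mem _ fun p _ => ?_
  have : (lp.single 2 p (x p) : H 𝕜) = x p • (lp.single 2 p (1 : 𝕜) : H 𝕜) := by
    rw [← lp.single_smul]; simp
  rw [this]
  exact Submodule.smul_mem _ _ (Submodule.subset_span ⟨p, rfl⟩)

end

/-- **Disproof of Q1.**  Over `𝕜 = ℝ` and over `𝕜 = ℂ` there are a separable Hilbert space `X` and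
a quasi-rigid bounded operator `T` on `X` such that for every bounded operator `Λ` on `X` some
element of `Ω(T)` lies outside the SOT closure of `{T ^ n Λ : n ≥ 1}`. -/
theorem result (𝕜 : Type) [RCLike 𝕜] :
    ∃ (X : Type) (_ : NormedAddCommGroup X) (_ : InnerProductSpace 𝕜 X),
      CompleteSpace X ∧ TopologicalSpace.SeparableSpace X ∧
      ∃ T : X →L[𝕜] X, QuasiRigid T ∧
        ∀ Λ : X →L[𝕜] X, ∃ h : X →L[𝕜] X, InOmega T h ∧
          ¬ InSOTClosure {A : X →L[𝕜] X | ∃ n : ℕ, 0 < n ∧ A = T ^ n * Λ} h := by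
  refine ⟨H 𝕜, inferInstance, inferInstance, inferInstance, separable, W 1, quasiRigid, ?_⟩
  intro Λ
  by_cases h1 : InSOTClosure {A : H 𝕜 →L[𝕜] H 𝕜 | ∃ n : ℕ, 0 < n ∧ A = (W 1) ^ n * Λ} 1
  · obtain ⟨R, hR⟩ := exists_nat_ge ‖Λ‖
    refine ⟨W (-((R + 1 : ℕ) : ℤ)), inOmega (R + 1), ?_⟩
    intro hcl
    obtain ⟨A, ⟨n, _, rfl⟩, hA⟩ := hcl {tvec 𝕜} (1 / (4 * (3 * (R : ℝ) + 1))) (by positivity)
    have := hA (tvec 𝕜) (by simp)
    have := far Λ h1 R hR n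
    linarith
  · refine ⟨1, ?_, h1⟩
    have := inOmega (𝕜 := 𝕜) 0
    simpa [W_zero] using this

end Pool.Agent.Results.MP_24d2d6_an.NoCoveringOrbit
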